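import Mathlib

set_option autoImplicit false

open scoped Pointwise Classical

namespace Pool.Agent.Lib.MP_29ab50_al

/-- One step elimination of a fresh cyclic variable. -/
theorem step {P : Type} [CommMonoid P] (T : Submonoid P) (p q : P) (n : ℕ) (χ : P →* ℂˣ)
    (ζ : ℂˣ) (hζ : orderOf ζ = n) (hT : ∀ t ∈ T, χ t = 1) (hp : χ p = ζ) (hq : χ q = ζ⁻¹)
    (hpq : p * q ∈ T) (hpn : p ^ n ∈ T) (hqn : q ^ n ∈ T) (y : P)
    (hy : y ∈ T ⊔ Submonoid.closure {p, q}) (hy1 : χ y = 1) : y ∈ T := by
  obtain ⟨t, ht, z, hz, rfl⟩ := Submonoid.mem_sup.1 hy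
  obtain ⟨i, j, rfl⟩ := Submonoid.mem_closure_pair p q z |>.1 hz
  rw [map_mul, map_mul, map_pow, map_pow, hT t ht, hp, hq, one_mul, inv_pow,
    mul_inv_eq_one, pow_eq_pow_iff_modEq, hζ] at hy1
  rcases le_total i j with h | h
  · obtain ⟨k, hk⟩ := (Nat.modEq_iff_dvd' h).1 hy1
    have hj : j = i + n * k := by omega
    have : t * (p ^ i * q ^ j) = t * ((p * q) ^ i * (q ^ n) ^ k) := by
      rw [hj, pow_add, mul_pow, pow_mul, mul_assoc]
    rw [this]
    exact T.mul_mem ht (T.mul_mem (T.pow_mem hpq _) (T.pow_mem hqn _))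
  · obtain ⟨k, hk⟩ := (Nat.modEq_iff_dvd' h).1 hy1.symm
    have hi : i = j + n * k := by omega
    have : t * (p ^ i * q ^ j) = t * ((p * q) ^ j * (p ^ n) ^ k) := by
      rw [hi, pow_add, mul_pow, pow_mul, mul_right_comm (p ^ j)]
    rw [this]
    exact T.mul_mem ht (T.mul_mem (T.pow_mem hpq _) (T.pow_mem hpn _))

theorem exists_root (n : ℕ) : ∃ ζ : ℂˣ, 0 < n → orderOf ζ = n := by
  by_cases hn : 0 < n
  · have h := Complex.isPrimitiveRoot_exp n hn.ne'
    refine ⟨(h.isUnit hn.ne').unit, fun _ => ?_⟩
    have h2 : IsPrimitiveRoot (h.isUnit hn.ne').unit n := h.isUnit_unit hn.ne'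
    exact h2.eq_orderOf.symm
  · exact ⟨1, fun h => absurd h hn⟩

/-- A unit of order `n`. -/
noncomputable def root (n : ℕ) : ℂˣ := (exists_root n).choose

theorem root_order {n : ℕ} (hn : 0 < n) : orderOf (root n) = n := (exists_root n).choose_spec hn

/-- Formal expressions. -/
inductive W (M : Type) : Type
  | idem (s : M) : W M
  | base (s : M) : W M
  | mul (a b : W M) : W M
  | left (a : W M) (s t : M) : W M
  | right (a : W M) (s t : M) : W M

variable {M : Type} [CommMonoid M] (N : M → ℕ)

/-- An exponent killing the group part. -/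
def ord : W M → ℕ
  | .idem _ => 1
  | .base s => N s
  | .mul a b => ord a * ord b
  | .left a s t => ord a * (N s * N t)
  | .right a s t => ord a * (N s * N t)

/-- The generator attached to a variable. -/
noncomputable def gen (v : W M) : W M → ℂˣ := Pi.mulSingle v (root (ord N v))

/-- Evaluation of expressions. -/
noncomputable def ev : W M → (W M → ℂˣ) × M
  | .idem s => (1, s ^ N s)
  | .base s => (gen N (.base s), s)
  | .mul a b => ev a * ev b
  | .left a s t => if (ev a).2 = s * t then (gen N (.left a s t), s) else 1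
  | .right a s t => if (ev a).2 = s * t then ((ev a).1 * (gen N (.left a s t))⁻¹, t) else 1

/-- Variables used by an expression. -/
noncomputable def vars : W M → Finset (W M)
  | .idem _ => ∅
  | .base s => {.base s}
  | .mul a b => vars a ∪ vars b
  | .left a s t => insert (.left a s t) (vars a)
  | .right a s t => insert (.left a s t) (vars a)

/-- Depth of an expression. -/
def depth : W M → ℕ
  | .idem _ => 0
  | .base _ => 0
  | .mul a b => max (depth a) (depth b)
  | .left a _ _ => depth a + 1
  | .right a _ _ => depth a + 1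

omit [CommMonoid M] in
theorem depth_le_of_mem_vars (w : W M) : ∀ v ∈ vars w, depth v ≤ depth w := by
  induction w with
  | idem s => simp [vars]
  | base s => simp [vars]
  | mul a b iha ihb =>
    intro v hv
    simp only [vars, Finset.mem_union] at hv
    simp only [depth]
    rcases hv with hv | hv
    · exact (iha v hv).trans (le_max_left _ _)
    · exact (ihb v hv).trans (le_max_right _ _)
  | left a s t ih =>
    intro v hv
    simp only [vars, Finset.mem_insert] at hv
    rcases hv with rfl | hv
    · exact le_rfl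
    · simp only [depth]; exact (ih v hv).trans (Nat.le_succ _)
  | right a s t ih =>
    intro v hv
    simp only [vars, Finset.mem_insert] at hv
    rcases hv with rfl | hv
    · simp [depth]
    · simp only [depth]; exact (ih v hv).trans (Nat.le_succ _)

omit [CommMonoid M] in
theorem ord_pos (hN : ∀ s, 0 < N s) (w : W M) : 0 < ord N w := by
  induction w with
  | idem s => simp [ord]
  | base s => exact hN s
  | mul a b iha ihb => exact Nat.mul_pos iha ihb
  | left a s t ih => exact Nat.mul_pos ih (Nat.mul_pos (hN s) (hN t))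
  | right a s t ih => exact Nat.mul_pos ih (Nat.mul_pos (hN s) (hN t))

omit [CommMonoid M] in
theorem gen_pow (hN : ∀ s, 0 < N s) (v : W M) : gen N v ^ ord N v = 1 := by
  unfold gen
  rw [← Pi.mulSingle_pow]
  conv_lhs => rw [← root_order (ord_pos N hN v)]
  rw [root_order (ord_pos N hN v)]
  have := pow_orderOf_eq_one (root (ord N v))
  rw [root_order (ord_pos N hN v)] at this
  rw [this, Pi.mulSingle_one]

omit [CommMonoid M] in
theorem gen_self (v : W M) : gen N v v = root (ord N v) := by
  simp [gen]

omit [CommMonoid M] in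
theorem gen_ne {v u : W M} (h : u ≠ v) : gen N v u = 1 := by
  simp [gen, Pi.mulSingle_eq_of_ne h]

theorem ev_pow (hN : ∀ s, 0 < N s) (w : W M) : (ev N w).1 ^ ord N w = 1 := by
  induction w with
  | idem s => simp [ev]
  | base s => exact gen_pow N hN _
  | mul a b iha ihb =>
    simp only [ev, ord, Prod.fst_mul, mul_pow]
    rw [pow_mul, iha, one_pow, one_mul, mul_comm, pow_mul, ihb, one_pow]
  | left a s t ih =>
    simp only [ev]
    split_ifs
    · exact gen_pow N hN _
    · simp
  | right a s t ih =>
    simp only [ev]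
    split_ifs
    · have h1 := gen_pow N hN (.left a s t)
      simp only [ord] at h1 ⊢
      rw [mul_pow, inv_pow, h1, pow_mul, ih]
      simp
    · simp

theorem ev_supp (w : W M) (v : W M) (hv : v ∉ vars w) : (ev N w).1 v = 1 := by
  induction w with
  | idem s => simp [ev]
  | base s =>
    simp only [vars, Finset.mem_singleton] at hv
    exact gen_ne N hv
  | mul a b iha ihb =>
    simp only [vars, Finset.mem_union, not_or] at hv
    simp [ev, iha hv.1, ihb hv.2]
  | left a s t ih =>
    simp only [vars, Finset.mem_insert, not_or] at hv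
    simp only [ev]
    split_ifs
    · exact gen_ne N hv.1
    · simp
  | right a s t ih =>
    simp only [vars, Finset.mem_insert, not_or] at hv
    simp only [ev]
    split_ifs
    · simp [ih hv.2, gen_ne N hv.1]
    · simp

/-- The values of the expressions whose variables lie in `A`. -/
def TT (A : Finset (W M)) : Submonoid ((W M → ℂˣ) × M) where
  carrier := {y | ∃ w, vars w ⊆ A ∧ ev N w = y}
  one_mem' := ⟨.idem 1, by simp [vars], by simp [ev]⟩
  mul_mem' := by
    rintro _ _ ⟨a, ha, rfl⟩ ⟨b, hb, rfl⟩
    exact ⟨.mul a b, Finset.union_subset ha hb, rfl⟩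

theorem mem_TT {A : Finset (W M)} {w : W M} (h : vars w ⊆ A) : ev N w ∈ TT N A := ⟨w, h, rfl⟩

theorem idem_mem (A : Finset (W M)) (s : M) (k : ℕ) :
    ((1 : W M → ℂˣ), s ^ (N s * k)) ∈ TT N A := by
  have h := (TT N A).pow_mem (mem_TT N (w := .idem s) (by simp [vars])) k
  simpa [ev, pow_mul] using h

theorem TT_le (A : Finset (W M)) (v : W M) (hmax : ∀ u ∈ A, depth u ≤ depth v)
    (U : Submonoid ((W M → ℂˣ) × M)) (hU : TT N (A.erase v) ≤ U)
    (hb : ∀ s, v = .base s → ev N (.base s) ∈ U)
    (hl : ∀ a s t, v = .left a s t → vars a ⊆ A →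
      ev N (.left a s t) ∈ U ∧ ev N (.right a s t) ∈ U) : TT N A ≤ U := by
  rintro _ ⟨w, hw, rfl⟩
  have key : ∀ a s t, insert (W.left a s t) (vars a) ⊆ A → v ≠ .left a s t →
      insert (W.left a s t) (vars a) ⊆ A.erase v := by
    intro a s t h hne u hu
    refine Finset.mem_erase.2 ⟨?_, h hu⟩
    rintro rfl
    rcases Finset.mem_insert.1 hu with h1 | h1
    · exact hne h1
    · have h2 := depth_le_of_mem_vars a u h1
      have h3 := hmax _ (h (Finset.mem_insert_self _ _))
      simp only [depth] at h3
      omega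
  induction w with
  | idem s => exact hU (mem_TT N (by simp [vars]))
  | base s =>
    by_cases h : v = .base s
    · exact hb s h
    · refine hU (mem_TT N ?_)
      intro u hu
      refine Finset.mem_erase.2 ⟨?_, hw hu⟩
      simp only [vars, Finset.mem_singleton] at hu
      rw [hu]; exact fun h' => h h'.symm
  | mul a b iha ihb =>
    simp only [vars] at hw
    exact U.mul_mem (iha (Finset.union_subset_left hw)) (ihb (Finset.union_subset_right hw))
  | left a s t ih =>
    simp only [vars] at hw
    by_cases h : v = .left a s t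
    · exact (hl a s t h ((Finset.subset_insert _ _).trans hw)).1
    · exact hU (mem_TT N (key a s t hw h))
  | right a s t ih =>
    simp only [vars] at hw
    by_cases h : v = .left a s t
    · exact (hl a s t h ((Finset.subset_insert _ _).trans hw)).2
    · exact hU (mem_TT N (key a s t hw h))

/-- The coordinate character. -/
def coord (v : W M) : ((W M → ℂˣ) × M) →* ℂˣ :=
  (Pi.evalMonoidHom (fun _ : W M => ℂˣ) v).comp (MonoidHom.fst _ _)

theorem coord_apply (v : W M) (y : (W M → ℂˣ) × M) : coord v y = y.1 v := rfl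

theorem coord_erase (A : Finset (W M)) (v : W M) : ∀ t ∈ TT N (A.erase v), coord v t = 1 := by
  rintro _ ⟨w, hw, rfl⟩
  exact ev_supp N w v (fun h => by simpa using hw h)

theorem elim_one (hN : ∀ s, 0 < N s) (A : Finset (W M)) (v : W M)
    (hmax : ∀ u ∈ A, depth u ≤ depth v) (y : (W M → ℂˣ) × M) (hy : y ∈ TT N A)
    (hy1 : y.1 v = 1) : y ∈ TT N (A.erase v) := by
  by_cases h1 : ∃ s, v = .base s
  · obtain ⟨s, rfl⟩ := h1
    set p := ev N (.base s) with hpdef
    have hpn : p ^ N s ∈ TT N (A.erase (.base s)) := by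
      have h := idem_mem N (A.erase (.base s)) s 1
      have h2 : p ^ N s = (1, s ^ (N s * 1)) := by
        have := gen_pow N hN (.base s)
        simp only [ord] at this
        simp [hpdef, ev, this]
      rwa [h2]
    have hNs : N s = (N s - 1) + 1 := by have := hN s; omega
    have hcp : coord (.base s) p = root (N s) := gen_self N _
    refine step (TT N (A.erase (.base s))) p (p ^ (N s - 1)) (N s) (coord (.base s)) (root (N s))
      (root_order (hN s)) (coord_erase N A _) hcp ?_ ?_ hpn ?_ y ?_ hy1
    · rw [map_pow, hcp, eq_inv_iff_mul_eq_one, ← pow_succ, ← hNs]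
      have := pow_orderOf_eq_one (root (N s))
      rwa [root_order (hN s)] at this
    · rw [← pow_succ', ← hNs]; exact hpn
    · rw [← pow_mul, mul_comm, pow_mul]; exact Submonoid.pow_mem _ hpn _
    · refine TT_le N A _ hmax _ le_sup_left ?_ ?_ hy
      · intro s' hs'
        cases hs'
        exact Submonoid.mem_sup_right (Submonoid.subset_closure (by simp [hpdef]))
      · intro a s' t h; cases h
  by_cases h2 : ∃ a s t, v = .left a s t ∧ vars a ⊆ A ∧ (ev N a).2 = s * t
  · obtain ⟨a, s, t, rfl, ha, hst⟩ := h2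
    have hva : W.left a s t ∉ vars a := by
      intro h
      have := depth_le_of_mem_vars a _ h
      simp only [depth] at this
      omega
    have ha' : vars a ⊆ A.erase (.left a s t) := by
      intro u hu
      refine Finset.mem_erase.2 ⟨?_, ha hu⟩
      rintro rfl
      exact hva hu
    have hp : ev N (.left a s t) = (gen N (.left a s t), s) := by simp [ev, hst]
    have hq : ev N (.right a s t) = ((ev N a).1 * (gen N (.left a s t))⁻¹, t) := by
      simp [ev, hst]
    have hg := gen_pow N hN (.left a s t)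
    refine step (TT N (A.erase (.left a s t))) (ev N (.left a s t)) (ev N (.right a s t))
      (ord N (.left a s t)) (coord (.left a s t)) (root (ord N (.left a s t)))
      (root_order (ord_pos N hN _)) (coord_erase N A _) ?_ ?_ ?_ ?_ ?_ y ?_ hy1
    · rw [hp]; exact gen_self N _
    · rw [hq, coord_apply]
      simp [ev_supp N a _ hva, gen_self]
    · have : ev N (.left a s t) * ev N (.right a s t) = ev N a := by
        rw [hp, hq]
        ext1
        · simp
        · simp [hst]
      rw [this]; exact mem_TT N ha'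
    · have h := idem_mem N (A.erase (.left a s t)) s (ord N a * N t)
      have h2 : ev N (.left a s t) ^ ord N (.left a s t) = (1, s ^ (N s * (ord N a * N t))) := by
        rw [hp]
        ext1
        · simpa using hg
        · simp only [ord, Prod.pow_snd]; congr 1; ring
      rwa [h2]
    · have h := idem_mem N (A.erase (.left a s t)) t (ord N a * N s)
      have h2 : ev N (.right a s t) ^ ord N (.left a s t) = (1, t ^ (N t * (ord N a * N s))) := by
        ext1
        · exact ev_pow N hN (.right a s t)
        · rw [hq]; simp only [ord, Prod.pow_snd]; congr 1; ring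
      rwa [h2]
    · refine TT_le N A _ hmax _ le_sup_left ?_ ?_ hy
      · intro s' hs'; cases hs'
      · intro a' s' t' h _
        cases h
        exact ⟨Submonoid.mem_sup_right (Submonoid.subset_closure (by simp)),
          Submonoid.mem_sup_right (Submonoid.subset_closure (by simp))⟩
  · refine TT_le N A v hmax _ le_rfl ?_ ?_ hy
    · intro s hs; exact absurd ⟨s, hs⟩ h1
    · intro a s t hv ha
      have hst : ¬ (ev N a).2 = s * t := fun h => h2 ⟨a, s, t, hv, ha, h⟩
      simp only [ev, hst, if_false]
      exact ⟨Submonoid.one_mem _, Submonoid.one_mem _⟩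

theorem elim_all (hN : ∀ s, 0 < N s) (c : M) (B : Finset (W M)) :
    ∀ y ∈ TT N (insert (.base c) B), (∀ v, v ≠ .base c → y.1 v = 1) →
      y ∈ TT N {.base c} := by
  induction B using Finset.induction_on_max_value depth with
  | empty => intro y hy _; simpa using hy
  | insert v B hvB hmax ih =>
    intro y hy hy1
    by_cases hv : v = .base c
    · subst hv
      rw [Finset.insert_idem] at hy
      exact ih y hy hy1
    · refine ih y ?_ hy1
      have h := elim_one N hN _ v ?_ y hy (hy1 v hv)
      · have e : (insert (W.base c) (insert v B)).erase v = insert (W.base c) B := by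
          rw [Finset.insert_comm, Finset.erase_insert]
          simp [hv, hvB]
        rwa [e] at h
      · intro u hu
        rcases Finset.mem_insert.1 hu with rfl | hu
        · simp [depth]
        rcases Finset.mem_insert.1 hu with rfl | hu
        · exact le_rfl
        · exact hmax u hu

theorem TT_empty (hI : ∀ s, IsIdempotentElem (s ^ N s)) :
    ∀ y ∈ TT N (∅ : Finset (W M)), y.1 = 1 ∧ IsIdempotentElem y.2 := by
  rintro _ ⟨w, hw, rfl⟩
  induction w with
  | idem s => exact ⟨rfl, hI s⟩
  | base s => simp [vars] at hw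
  | mul a b iha ihb =>
    simp only [vars] at hw
    have h1 := iha (Finset.union_subset_left hw)
    have h2 := ihb (Finset.union_subset_right hw)
    refine ⟨by simp [ev, h1.1, h2.1], ?_⟩
    exact h1.2.mul h2.2
  | left a s t ih => simp [vars] at hw
  | right a s t ih => simp [vars] at hw

theorem label (hN : ∀ s, 2 ≤ N s) (hI : ∀ s, IsIdempotentElem (s ^ N s)) (c b : M) (w : W M)
    (hw : ev N w = (gen N (.base c), b)) : ∃ e, IsIdempotentElem e ∧ b = c * e := by
  have hN0 : ∀ s, 0 < N s := fun s => by have := hN s; omega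
  have h1 : ev N w ∈ TT N {.base c} := by
    refine elim_all N hN0 c (vars w) _ (mem_TT N (Finset.subset_insert _ _)) ?_
    intro v hv
    rw [hw]; exact gen_ne N hv
  have h2 : ev N w ∈ TT N ∅ ⊔ Submonoid.closure {ev N (.base c)} := by
    refine TT_le N {.base c} (.base c) (by simp) _ (by simp) ?_ ?_ h1
    · intro s hs; cases hs
      exact Submonoid.mem_sup_right (Submonoid.subset_closure (by simp))
    · intro a s t h; cases h
  obtain ⟨t, ht, z, hz, h3⟩ := Submonoid.mem_sup.1 h2
  obtain ⟨i, rfl⟩ := Submonoid.mem_closure_singleton.1 hz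
  obtain ⟨ht1, ht2⟩ := TT_empty N hI t ht
  rw [hw] at h3
  have h4 := congrArg (fun y => y.1 (W.base c)) h3
  have h5 := congrArg Prod.snd h3
  simp only [ev, Prod.fst_mul, ht1, one_mul, Prod.pow_fst, Pi.pow_apply, gen_self, ord] at h4
  simp only [ev, Prod.snd_mul, Prod.pow_snd] at h5
  have h6 : i ≡ 1 [MOD N c] := by
    have : root (N c) ^ i = root (N c) ^ 1 := by rw [h4, pow_one]
    rwa [pow_eq_pow_iff_modEq, root_order (hN0 c)] at this
  have hi : 1 ≤ i := by
    by_contra h
    have h0 : i = 0 := by omega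
    rw [h0] at h6
    have := Nat.le_of_dvd one_pos ((Nat.modEq_iff_dvd' zero_le_one).1 h6)
    have := hN c
    omega
  obtain ⟨k, hk⟩ := (Nat.modEq_iff_dvd' hi).1 h6.symm
  refine ⟨t.2 * (c ^ N c) ^ k, ht2.mul ((hI c).pow k), ?_⟩
  have : i = 1 + N c * k := by omega
  rw [← h5, this, pow_add, pow_one, pow_mul, mul_left_comm]

/-- The embedding for a periodic commutative monoid. -/
theorem monoid_embed (hN : ∀ s, 2 ≤ N s) (hI : ∀ s, IsIdempotentElem (s ^ N s)) :
    ∃ (G : Type) (_ : CommGroup G), Monoid.IsTorsion G ∧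
      ∃ f : M →ₙ* Set G, Function.Injective f ∧ ∀ s : M, (f s).Nonempty := by
  have hN0 : ∀ s, 0 < N s := fun s => by have := hN s; omega
  have htor : ∀ w : W M, (ev N w).1 ∈ CommGroup.torsion (W M → ℂˣ) := fun w =>
    isOfFinOrder_iff_pow_eq_one.2 ⟨ord N w, ord_pos N hN0 w, ev_pow N hN0 w⟩
  let φ : M → Set (CommGroup.torsion (W M → ℂˣ)) := fun s => {g | ∃ w, ev N w = (g.1, s)}
  have hbase : ∀ s, (⟨(ev N (.base s)).1, htor _⟩ : CommGroup.torsion (W M → ℂˣ)) ∈ φ s :=
    fun s => ⟨.base s, rfl⟩
  refine ⟨CommGroup.torsion (W M → ℂˣ), inferInstance, CommMonoid.torsion.isTorsion,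
    ⟨φ, ?_⟩, ?_, fun s => ⟨_, hbase s⟩⟩
  · intro s t
    ext g
    constructor
    · rintro ⟨w, hw⟩
      have hst : (ev N w).2 = s * t := by rw [hw]
      refine ⟨⟨(ev N (.left w s t)).1, htor _⟩, ⟨.left w s t, by simp [ev, hst]⟩,
        ⟨(ev N (.right w s t)).1, htor _⟩, ⟨.right w s t, by simp [ev, hst]⟩, ?_⟩
      ext1
      simp [ev, hw]
    · rintro ⟨g1, ⟨w1, h1⟩, g2, ⟨w2, h2⟩, rfl⟩
      exact ⟨.mul w1 w2, by simp [ev, h1, h2]⟩
  · intro a b hab
    have hab' : φ a = φ b := hab
    obtain ⟨w1, h1⟩ : (⟨(ev N (.base a)).1, htor _⟩ : CommGroup.torsion (W M → ℂˣ)) ∈ φ b :=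
      hab' ▸ hbase a
    obtain ⟨w2, h2⟩ : (⟨(ev N (.base b)).1, htor _⟩ : CommGroup.torsion (W M → ℂˣ)) ∈ φ a :=
      hab' ▸ hbase b
    obtain ⟨e, he, hb⟩ := label N hN hI a b w1 h1
    obtain ⟨e', he', ha⟩ := label N hN hI b a w2 h2
    have h3 : a = a * e * e' := by rw [← hb]; exact ha
    calc a = a * e * e' := h3
      _ = a * e * e' * e := by rw [mul_right_comm (a * e) e' e, mul_assoc a e e, he.eq]
      _ = a * e := by rw [← h3]
      _ = b := hb.symm

theorem exists_idem_pow (s : M) (hs : (Set.range fun k : ℕ => s ^ (k + 1)).Finite) :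
    ∃ n, 2 ≤ n ∧ IsIdempotentElem (s ^ n) := by
  have : ¬ Function.Injective fun k : ℕ => s ^ (k + 1) := fun h =>
    Set.infinite_range_of_injective h hs
  obtain ⟨i, j, hij, hne⟩ := Function.not_injective_iff.1 this
  wlog hlt : i < j generalizing i j
  · exact this j i hij.symm hne.symm (by omega)
  obtain ⟨d, rfl⟩ : ∃ d, j = i + (d + 1) := ⟨j - i - 1, by omega⟩
  have h1 : ∀ k, s ^ (i + 1 + k * (d + 1)) = s ^ (i + 1) := by
    intro k
    induction k with
    | zero => simp
    | succ k ih =>
      have : i + 1 + (k + 1) * (d + 1) = (i + (d + 1) + 1) + k * (d + 1) := by ring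
      rw [this, pow_add, ← hij, ← pow_add, ih]
  refine ⟨(i + 2) * (d + 1), by nlinarith, ?_⟩
  obtain ⟨m, hm⟩ : ∃ m, (i + 2) * (d + 1) = i + 1 + m := ⟨(i + 2) * (d + 1) - (i + 1), by
    have : i + 1 ≤ (i + 2) * (d + 1) := by nlinarith
    omega⟩
  unfold IsIdempotentElem
  calc s ^ ((i + 2) * (d + 1)) * s ^ ((i + 2) * (d + 1))
      = s ^ (i + 1 + (i + 2) * (d + 1)) * s ^ m := by
        rw [← pow_add, ← pow_add]; congr 1; omega
    _ = s ^ ((i + 2) * (d + 1)) := by rw [h1, ← pow_add, hm]

theorem main (S : Type) [CommSemigroup S]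
    (hS : ∀ x : S, (Subsemigroup.closure ({x} : Set S) : Set S).Finite) :
    ∃ (G : Type) (_ : CommGroup G), Monoid.IsTorsion G ∧
      ∃ f : S →ₙ* Set G, Function.Injective f ∧ ∀ s : S, (f s).Nonempty := by
  have h : ∀ s : WithOne S, ∃ n, 2 ≤ n ∧ IsIdempotentElem (s ^ n) := by
    intro s
    induction s using WithOne.recOneCoe with
    | one => exact ⟨2, le_rfl, by simp [IsIdempotentElem]⟩
    | coe x =>
      apply exists_idem_pow
      refine ((hS x).image (fun y : S => (y : WithOne S))).subset ?_
      rintro _ ⟨k, rfl⟩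
      induction k with
      | zero => exact ⟨x, Subsemigroup.subset_closure rfl, by simp⟩
      | succ k ih =>
        obtain ⟨y, hy, hy2⟩ := ih
        refine ⟨y * x, Subsemigroup.mul_mem _ hy (Subsemigroup.subset_closure rfl), ?_⟩
        simp only at hy2 ⊢
        rw [pow_succ, ← hy2, WithOne.coe_mul]
  choose N hN hI using h
  obtain ⟨G, hG, htor, f, hf, hne⟩ := monoid_embed N hN hI
  refine ⟨G, hG, htor, f.comp WithOne.coeMulHom, hf.comp ?_, fun s => hne _⟩
  intro a b hab
  exact WithOne.coe_inj.1 hab

end Pool.Agent.Lib.MP_29ab50_al
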